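import Pool.Agent.W593.IR.Stm3

set_option autoImplicit false

namespace Pool.Agent.W20.IR

open Finset Pool.Agent.W890.SF Filter Topology Pool.Agent.W593.IR

lemma ph42 (ρ : ℝ) : Ph 4 2 ρ = 1 - 2 * ρ ^ 3 + 5 / 4 * ρ ^ 4 := by
  unfold Ph
  simp only [Finset.sum_range_succ, Finset.sum_range_zero]
  norm_num [Nat.choose]
  ring

lemma ph43 (ρ : ℝ) : Ph 4 3 ρ = 1 - (19 / 27 * ρ ^ 4 + 20 / 9 * (1 - ρ) * ρ ^ 3 +
    2 * (1 - ρ) ^ 2 * ρ ^ 2) := by
  unfold Ph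
  simp only [Finset.sum_range_succ, Finset.sum_range_zero]
  norm_num [Nat.choose]
  ring

theorem ph4 : S_PH4 := by
  intro ρ h1 h2
  have h0 : 0 < ρ := by linarith
  rw [ph42, ph43]
  constructor
  · rcases le_total ρ (8 / 9) with h | h
    · refine (min_le_right _ _).trans ?_
      have hD : 0 ≤ 1 - 3 / 8 * ρ - 31 / 16 * ρ ^ 2 + 319 / 256 * ρ ^ 3 := by
        nlinarith [mul_nonneg (sub_nonneg.2 h1) (sub_nonneg.2 h), mul_nonneg (mul_nonneg (sub_nonneg.2 h1) (sub_nonneg.2 h)) h0.le]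
      nlinarith [mul_nonneg h0.le hD]
    · refine (min_le_left _ _).trans ?_
      have h3 : 0 ≤ ρ ^ 3 := by positivity
      nlinarith [mul_nonneg h3 (sub_nonneg.2 h)]
  · rcases le_total ρ (8927 / 10000) with h | h
    · refine (min_le_right _ _).trans ?_
      have hD : 0 ≤ 1 - 19 / 8 * ρ + 265 / 144 * ρ ^ 2 - 3355 / 6912 * ρ ^ 3 := by
        nlinarith [mul_nonneg (sub_nonneg.2 h1) (sub_nonneg.2 h), mul_nonneg (mul_nonneg (sub_nonneg.2 h1) (sub_nonneg.2 h)) h0.le]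
      nlinarith [mul_nonneg h0.le hD]
    · refine (min_le_left _ _).trans ?_
      have hD : 0 ≤ 14 * ρ ^ 2 + 48 * ρ - 54 := by nlinarith
      have h3 : 0 ≤ ρ ^ 2 := by positivity
      nlinarith [mul_nonneg h3 hD]

end Pool.Agent.W20.IR
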